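import Mathlib
import Pool.Agent.Q52.Generic

/-!
# The weak Darboux property fails for induced quasi-densities

On each of the three domains there is an upper quasi-density `μ*` and a set `X` in the domain of
the induced quasi-density `μ` with `μ(X) = 1/2` such that no subset of `X` in the domain of `μ`
has `μ`-value strictly between `0` and `1/2`.
-/

namespace Pool.Agent.Results.MP_52e7c8_nt.NoWeakDarboux

/-- `k · X + h`. -/
def affineImage (k h : ℕ) (X : Set ℤ) : Set ℤ := (fun x : ℤ => (k : ℤ) * x + (h : ℤ)) '' X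

/-- `μ` (restricted to the subsets of `H`) is an upper quasi-density on `H ⊆ ℤ`:
(F1), (F3), (F4 flat) and `μ ≤ 1`. -/
structure IsUpperQuasiDensity (H : Set ℤ) (μ : Set ℤ → ℝ) : Prop where
  total : μ H = 1
  subadd : ∀ X Y : Set ℤ, X ⊆ H → Y ⊆ H → μ (X ∪ Y) ≤ μ X + μ Y
  affine : ∀ X : Set ℤ, X ⊆ H → ∀ h k : ℕ, 0 < h → 0 < k →
    μ (affineImage k h X) = 1 / (k : ℝ) * μ X
  le_one : ∀ X : Set ℤ, X ⊆ H → μ X ≤ 1

/-- `X` is in the domain of the quasi-density induced by `μ`. -/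
def InDomain (H : Set ℤ) (μ : Set ℤ → ℝ) (X : Set ℤ) : Prop :=
  X ⊆ H ∧ μ X + μ (H \ X) = 1

open Pool.Agent.Q52.Dens

/-- cost of a cover. -/
noncomputable def cost (T : Finset (Bool × ℕ × ℤ)) (Q : Set ℤ) : ℝ :=
  (∑ p ∈ T, 1 / (2 * (p.2.1 : ℝ))) + buck Q

/-- exact cover of `Z` by the pieces with labels in `T` and the set `Q`. -/
def Covers (H : Set ℤ) (f : ℤ → Bool) (Z : Set ℤ) (T : Finset (Bool × ℕ × ℤ)) (Q : Set ℤ) :
    Prop := (∀ p ∈ T, 0 < p.2.1) ∧ (⋃ p ∈ T, piece H f p) ∪ Q = Z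

/-- the upper quasi-density. -/
noncomputable def mu (H : Set ℤ) (f : ℤ → Bool) (Z : Set ℤ) : ℝ :=
  sInf {c : ℝ | ∃ (T : Finset (Bool × ℕ × ℤ)) (Q : Set ℤ), Covers H f Z T Q ∧ c = cost T Q}

theorem cost_nonneg (T : Finset (Bool × ℕ × ℤ)) (Q : Set ℤ) : 0 ≤ cost T Q := by
  unfold cost
  have := buck_nonneg Q
  positivity

theorem mu_bdd (H : Set ℤ) (f : ℤ → Bool) (Z : Set ℤ) :
    BddBelow {c : ℝ | ∃ (T : Finset (Bool × ℕ × ℤ)) (Q : Set ℤ), Covers H f Z T Q ∧ c = cost T Q} :=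
  ⟨0, by rintro _ ⟨T, Q, _, rfl⟩; exact cost_nonneg T Q⟩

theorem mu_le {H : Set ℤ} {f : ℤ → Bool} {Z : Set ℤ} {T : Finset (Bool × ℕ × ℤ)} {Q : Set ℤ}
    (h : Covers H f Z T Q) : mu H f Z ≤ cost T Q := csInf_le (mu_bdd H f Z) ⟨T, Q, h, rfl⟩

theorem covers_self (H : Set ℤ) (f : ℤ → Bool) (Z : Set ℤ) : Covers H f Z ∅ Z :=
  ⟨by simp, by simp⟩

theorem le_mu {H : Set ℤ} {f : ℤ → Bool} {Z : Set ℤ} {c : ℝ}
    (h : ∀ T Q, Covers H f Z T Q → c ≤ cost T Q) : c ≤ mu H f Z := by
  apply le_csInf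
  · exact ⟨_, ∅, Z, covers_self H f Z, rfl⟩
  · rintro _ ⟨T, Q, hC, rfl⟩
    exact h T Q hC

theorem mu_le_buck (H : Set ℤ) (f : ℤ → Bool) (Z : Set ℤ) : mu H f Z ≤ buck Z := by
  have := mu_le (covers_self H f Z)
  simpa [cost] using this

theorem mu_nonneg (H : Set ℤ) (f : ℤ → Bool) (Z : Set ℤ) : 0 ≤ mu H f Z :=
  le_mu fun T Q _ => cost_nonneg T Q

theorem mu_subadd (H : Set ℤ) (f : ℤ → Bool) (X Y : Set ℤ) :
    mu H f (X ∪ Y) ≤ mu H f X + mu H f Y := by
  classical
  have key : ∀ T Q T' Q', Covers H f X T Q → Covers H f Y T' Q' →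
      mu H f (X ∪ Y) ≤ cost T Q + cost T' Q' := by
    intro T Q T' Q' h h'
    have h1 : Covers H f (X ∪ Y) (T ∪ T') (Q ∪ Q') := by
      refine ⟨?_, ?_⟩
      · intro p hp
        rcases Finset.mem_union.1 hp with hp | hp
        · exact h.1 p hp
        · exact h'.1 p hp
      · rw [← h.2, ← h'.2, Finset.set_biUnion_union]
        ext x
        simp only [Set.mem_union]
        tauto
    refine (mu_le h1).trans ?_
    unfold cost
    have h2 : ∑ p ∈ T ∪ T', 1 / (2 * (p.2.1 : ℝ)) ≤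
        ∑ p ∈ T, 1 / (2 * (p.2.1 : ℝ)) + ∑ p ∈ T', 1 / (2 * (p.2.1 : ℝ)) := by
      rw [← Finset.sum_union_inter]
      have : 0 ≤ ∑ p ∈ T ∩ T', 1 / (2 * (p.2.1 : ℝ)) := by positivity
      linarith
    linarith [buck_union_le Q Q']
  have h1 : ∀ T' Q', Covers H f Y T' Q' → mu H f (X ∪ Y) - cost T' Q' ≤ mu H f X := by
    intro T' Q' h'
    apply le_mu
    intro T Q h
    linarith [key T Q T' Q' h h']
  have h2 : mu H f (X ∪ Y) - mu H f X ≤ mu H f Y := by
    apply le_mu
    intro T' Q' h'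
    linarith [h1 T' Q' h']
  linarith

/-- push a label forward. -/
def push (k : ℕ) (h : ℤ) (p : Bool × ℕ × ℤ) : Bool × ℕ × ℤ := (p.1, k * p.2.1, k * p.2.2 + h)

theorem aff_aff (k k' : ℕ) (h h' : ℤ) (X : Set ℤ) :
    aff k h (aff k' h' X) = aff (k * k') (k * h' + h) X := by
  unfold aff
  rw [Set.image_image]
  apply Set.image_congr
  intro x _
  push_cast
  ring

theorem piece_push (H : Set ℤ) (f : ℤ → Bool) (k : ℕ) (h : ℤ) (p : Bool × ℕ × ℤ) :
    piece H f (push k h p) = aff k h (piece H f p) := by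
  unfold piece push
  rw [aff_aff]

theorem push_inj (k : ℕ) (hk : 0 < k) (h : ℤ) : Function.Injective (push k h) := by
  rintro ⟨s, a, b⟩ ⟨s', a', b'⟩ hpq
  simp only [push, Prod.mk.injEq] at hpq
  obtain ⟨h1, h2, h3⟩ := hpq
  have hk' : (k : ℤ) ≠ 0 := by exact_mod_cast hk.ne'
  have h4 : (k : ℤ) * b = k * b' := by linarith
  rw [h1, Nat.eq_of_mul_eq_mul_left hk h2, mul_left_cancel₀ hk' h4]

theorem cost_push (k : ℕ) (hk : 0 < k) (h : ℤ) (T : Finset (Bool × ℕ × ℤ)) (Q : Set ℤ) :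
    cost (T.image (push k h)) (aff k h Q) = 1 / (k : ℝ) * cost T Q := by
  unfold cost
  rw [Finset.sum_image (fun a _ b _ hab => push_inj k hk h hab), buck_aff k hk h, mul_add,
    Finset.mul_sum]
  congr 1
  apply Finset.sum_congr rfl
  intro p _
  unfold push
  push_cast
  rw [one_div_mul_one_div]
  congr 1
  ring

theorem biUnion_push (H : Set ℤ) (f : ℤ → Bool) (k : ℕ) (h : ℤ) (T : Finset (Bool × ℕ × ℤ)) :
    (⋃ p ∈ T.image (push k h), piece H f p) = aff k h (⋃ p ∈ T, piece H f p) := by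
  unfold aff
  rw [Set.image_iUnion₂]
  ext x
  simp only [Finset.mem_image, Set.mem_iUnion, exists_prop]
  constructor
  · rintro ⟨_, ⟨p, hp, rfl⟩, hx⟩
    rw [piece_push] at hx
    exact ⟨p, hp, hx⟩
  · rintro ⟨p, hp, hx⟩
    refine ⟨_, ⟨p, hp, rfl⟩, ?_⟩
    rw [piece_push]
    exact hx

section generic

variable {H : Set ℤ} {f : ℤ → Bool} (hpos : ∀ x : ℤ, 0 < x → x ∈ H) (hf : ∀ q, f ∈ U q)

include hpos hf

theorem gen (m : ℕ) (hm : 0 < m) (r N : ℤ) (s : Bool) (T : Finset (Bool × ℕ × ℤ)) (hT : Adm T) :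
    ∃ x : ℤ, N < x ∧ x % (m : ℤ) = r % (m : ℤ) ∧ x ∈ half H f s ∧ ∀ p ∈ T, x ∉ piece H f p := by
  obtain ⟨x, hx1, hx2, hx3, hx4⟩ := hf (m, r, max N 0, s, T) hm hT
  refine ⟨x, (le_max_left _ _).trans_lt hx1, hx2,
    ⟨hpos x ((le_max_right _ _).trans_lt hx1), hx3⟩, ?_⟩
  rintro p hp ⟨y, hy, hyx⟩
  have h1 := hx4 p hp y hyx
  have h2 := hy.2
  rw [h2] at h1
  cases h : p.1 <;> simp [h] at h1

theorem gen_empty (m : ℕ) (hm : 0 < m) (r N : ℤ) (s : Bool) :
    ∃ x : ℤ, N < x ∧ x % (m : ℤ) = r % (m : ℤ) ∧ x ∈ half H f s := by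
  obtain ⟨x, h1, h2, h3, _⟩ := gen hpos hf m hm r N s ∅ ⟨by simp, by simp, by simp⟩
  exact ⟨x, h1, h2, h3⟩

theorem piece_sub (k : ℕ) (hk : 0 < k) (h : ℤ) (p : Bool × ℕ × ℤ)
    (hsub : piece H f p ⊆ aff k h Set.univ) : k ∣ p.2.1 ∧ (k : ℤ) ∣ p.2.2 - h := by
  obtain ⟨x, -, hx, hxm⟩ := gen_empty hpos hf k hk 0 0 p.1
  obtain ⟨y, -, hy, hym⟩ := gen_empty hpos hf k hk 1 0 p.1
  obtain ⟨a, -, ha⟩ := hsub ⟨x, hxm, rfl⟩
  obtain ⟨b, -, hb⟩ := hsub ⟨y, hym, rfl⟩
  simp only at ha hb
  have hx' : (k : ℤ) ∣ x := by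
    rw [Int.dvd_iff_emod_eq_zero]; simpa using hx
  obtain ⟨c, hc⟩ := hx'
  have hy' : (k : ℤ) ∣ y - 1 := (Int.ModEq.dvd (show (1 : ℤ) ≡ y [ZMOD k] from hy.symm))
  obtain ⟨d, hd⟩ := hy'
  have h1 : (k : ℤ) ∣ p.2.2 - h := ⟨a - p.2.1 * c, by rw [hc] at ha; linear_combination -ha⟩
  refine ⟨?_, h1⟩
  obtain ⟨e, he⟩ := h1
  have h2 : (k : ℤ) ∣ (p.2.1 : ℤ) := by
    refine ⟨b - p.2.1 * d - e, ?_⟩
    have : y = k * d + 1 := by linarith
    rw [this] at hb
    linear_combination -hb - he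
  exact_mod_cast h2

theorem mu_aff (k : ℕ) (hk : 0 < k) (h : ℤ) (Z : Set ℤ) :
    mu H f (aff k h Z) = 1 / (k : ℝ) * mu H f Z := by
  have hk' : (0 : ℝ) < k := by exact_mod_cast hk
  apply le_antisymm
  · have : (k : ℝ) * mu H f (aff k h Z) ≤ mu H f Z := by
      apply le_mu
      intro T Q hC
      have h1 : Covers H f (aff k h Z) (T.image (push k h)) (aff k h Q) := by
        refine ⟨?_, ?_⟩
        · intro p hp
          obtain ⟨q, hq, rfl⟩ := Finset.mem_image.1 hp
          exact Nat.mul_pos hk (hC.1 q hq)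
        · rw [biUnion_push, ← hC.2]
          unfold aff
          rw [Set.image_union]
      have h2 := mu_le h1
      rw [cost_push k hk h] at h2
      calc (k : ℝ) * mu H f (aff k h Z) ≤ k * (1 / (k : ℝ) * cost T Q) := by gcongr
        _ = cost T Q := by field_simp
    rw [one_div, ← div_eq_inv_mul, le_div_iff₀ hk']
    linarith
  · apply le_mu
    intro T Q hC
    let g : ℤ → ℤ := fun x => (k : ℤ) * x + h
    have hg : Function.Injective g := aff_injective k hk h
    have hTsub : ∀ p ∈ T, piece H f p ⊆ aff k h Z := by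
      intro p hp x hx
      rw [← hC.2]
      exact Or.inl (Set.mem_biUnion hp hx)
    have hQsub : Q ⊆ aff k h Z := by
      intro x hx
      rw [← hC.2]
      exact Or.inr hx
    let pull : Bool × ℕ × ℤ → Bool × ℕ × ℤ := fun p => (p.1, p.2.1 / k, (p.2.2 - h) / k)
    have hpp : ∀ p ∈ T, push k h (pull p) = p := by
      intro p hp
      obtain ⟨h1, h2⟩ := piece_sub hpos hf k hk h p
        ((hTsub p hp).trans (Set.image_mono (Set.subset_univ _)))
      show (p.1, k * (p.2.1 / k), (k : ℤ) * ((p.2.2 - h) / k) + h) = p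
      rw [Nat.mul_div_cancel' h1, Int.mul_ediv_cancel' h2]
      simp
    have hT' : (T.image pull).image (push k h) = T := by
      rw [Finset.image_image]
      conv_rhs => rw [← Finset.image_id (s := T)]
      apply Finset.image_congr
      intro p hp
      exact hpp p hp
    have hQ' : aff k h (g ⁻¹' Q) = Q := by
      show g '' (g ⁻¹' Q) = Q
      rw [Set.image_preimage_eq_iff]
      exact hQsub.trans (Set.image_subset_range _ _)
    have h3 : Covers H f Z (T.image pull) (g ⁻¹' Q) := by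
      refine ⟨?_, ?_⟩
      · intro q hq
        obtain ⟨p, hp, rfl⟩ := Finset.mem_image.1 hq
        have h1 := hC.1 p hp
        have h2 := (piece_sub hpos hf k hk h p
          ((hTsub p hp).trans (Set.image_mono (Set.subset_univ _)))).1
        exact Nat.div_pos (Nat.le_of_dvd h1 h2) hk
      · apply Set.image_injective.2 hg
        show aff k h _ = aff k h Z
        rw [← hC.2]
        have : aff k h ((⋃ p ∈ T.image pull, piece H f p) ∪ g ⁻¹' Q) =
            aff k h (⋃ p ∈ T.image pull, piece H f p) ∪ aff k h (g ⁻¹' Q) := Set.image_union _ _ _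
        rw [this, ← biUnion_push, hT', hQ']
    have h4 := mu_le h3
    have h5 : cost T Q = 1 / (k : ℝ) * cost (T.image pull) (g ⁻¹' Q) := by
      rw [← cost_push k hk h, hT', hQ']
    rw [h5]
    gcongr

omit hpos hf in
theorem rc_biUnion_le (M : ℕ) (F : Finset (Bool × ℕ × ℤ)) (S : Bool × ℕ × ℤ → Set ℤ) :
    rc M (⋃ p ∈ F, S p) ≤ ∑ p ∈ F, rc M (S p) := by
  classical
  induction F using Finset.induction_on with
  | empty => simp [rc, res]
  | insert a s ha ih =>
    rw [Finset.set_biUnion_insert, Finset.sum_insert ha]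
    exact (rc_union_le _ _ _).trans (by omega)

/-- the covering lemma. -/
theorem covering (s : Bool) (D Q : Set ℤ) (T : Finset (Bool × ℕ × ℤ))
    (hT1 : ∀ p ∈ T, 0 < p.2.1) (hT2 : ∀ p ∈ T, p.2 ≠ (1, 0))
    (hcov : half H f s \ D ⊆ (⋃ p ∈ T, piece H f p) ∪ Q) : 1 ≤ cost T Q + buck D := by
  classical
  let F := T.filter (fun p => p.1 = true ∧ (false, p.2) ∈ T)
  let S := T.filter (fun p => (!p.1, p.2) ∉ T)
  have hS : Adm S := by
    refine ⟨fun p hp => hT1 p (Finset.mem_filter.1 hp).1, fun p hp h => ?_,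
      fun p hp => hT2 p (Finset.mem_filter.1 hp).1⟩
    exact (Finset.mem_filter.1 hp).2 (Finset.mem_filter.1 h).1
  have hFT : ∀ p ∈ F, p ∈ T := fun p hp => (Finset.mem_filter.1 hp).1
  -- sum comparison
  have hsum : ∑ p ∈ F, 1 / (p.2.1 : ℝ) ≤ ∑ p ∈ T, 1 / (2 * (p.2.1 : ℝ)) := by
    let F' := F.image (fun p => (false, p.2))
    have hdis : Disjoint F F' := by
      rw [Finset.disjoint_left]
      intro p hp hp'
      obtain ⟨q, hq, rfl⟩ := Finset.mem_image.1 hp'
      have := (Finset.mem_filter.1 hp).2.1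
      simp at this
    have hsub : F ∪ F' ⊆ T := by
      intro p hp
      rcases Finset.mem_union.1 hp with hp | hp
      · exact hFT p hp
      · obtain ⟨q, hq, rfl⟩ := Finset.mem_image.1 hp
        exact (Finset.mem_filter.1 hq).2.2
    have h1 : ∑ p ∈ F ∪ F', 1 / (2 * (p.2.1 : ℝ)) ≤ ∑ p ∈ T, 1 / (2 * (p.2.1 : ℝ)) :=
      Finset.sum_le_sum_of_subset_of_nonneg hsub (fun p _ _ => by positivity)
    rw [Finset.sum_union hdis] at h1
    have h2 : ∑ p ∈ F', 1 / (2 * (p.2.1 : ℝ)) = ∑ p ∈ F, 1 / (2 * (p.2.1 : ℝ)) := by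
      apply Finset.sum_image
      intro a ha b hb hab
      have ha1 := (Finset.mem_filter.1 ha).2.1
      have hb1 := (Finset.mem_filter.1 hb).2.1
      apply Prod.ext
      · rw [ha1, hb1]
      · simpa using hab
    rw [h2, ← Finset.sum_add_distrib] at h1
    refine le_trans (le_of_eq ?_) h1
    apply Finset.sum_congr rfl
    intro p hp
    have : (0 : ℝ) < p.2.1 := by exact_mod_cast hT1 p (hFT p hp)
    field_simp
    norm_num
  -- counting
  let K := ∏ p ∈ F, p.2.1
  have hK : 0 < K := Finset.prod_pos fun p hp => hT1 p (hFT p hp)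
  have key : ∀ n m : ℕ, 0 < n → 0 < m →
      1 ≤ ∑ p ∈ F, 1 / (p.2.1 : ℝ) + (rc n D : ℝ) / n + (rc m Q : ℝ) / m := by
    intro n m hn hm
    obtain ⟨M, hM⟩ : ∃ M, M = K * (n * m) := ⟨_, rfl⟩
    have hM0 : 0 < M := by rw [hM]; positivity
    have hM0' : (0 : ℝ) < M := by exact_mod_cast hM0
    have hMn : M = n * (K * m) := by rw [hM]; ring
    have hMm : M = m * (K * n) := by rw [hM]; ring
    have hkM : ∀ p ∈ F, p.2.1 ∣ M := by
      intro p hp
      rw [hM]
      exact (Finset.dvd_prod_of_mem (fun p : Bool × ℕ × ℤ => p.2.1) hp).mul_right _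
    have hsub : Set.Ico 0 (M : ℤ) ⊆
        res M ((⋃ p ∈ F, aff p.2.1 p.2.2 Set.univ) ∪ D ∪ Q) := by
      intro r hr
      obtain ⟨x, hx0, hxr, hxs, hxS⟩ := gen hpos hf M hM0 r 0 s S hS
      have hxr' : x % (M : ℤ) = r := by
        rw [hxr]; exact Int.emod_eq_of_lt hr.1 hr.2
      by_cases hxD : x ∈ D
      · exact ⟨x, Or.inl (Or.inr hxD), hxr'⟩
      rcases hcov ⟨hxs, hxD⟩ with hx | hx
      · simp only [Set.mem_iUnion, exists_prop] at hx
        obtain ⟨p, hp, hxp⟩ := hx
        have hpS : p ∉ S := fun hpS => hxS p hpS hxp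
        have hp2 : (!p.1, p.2) ∈ T := by
          by_contra hcon
          exact hpS (Finset.mem_filter.2 ⟨hp, hcon⟩)
        have hpF : (true, p.2) ∈ F := by
          rcases h : p.1 with _ | _
          · rw [h] at hp2
            refine Finset.mem_filter.2 ⟨hp2, rfl, ?_⟩
            show (false, p.2) ∈ T
            rw [← h]; exact hp
          · rw [h] at hp2
            refine Finset.mem_filter.2 ⟨?_, rfl, hp2⟩
            rw [← h]; exact hp
        refine ⟨x, Or.inl (Or.inl ?_), hxr'⟩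
        apply Set.mem_biUnion hpF
        obtain ⟨y, _, hy⟩ := hxp
        exact ⟨y, trivial, hy⟩
      · exact ⟨x, Or.inr hx, hxr'⟩
    have h1 : M ≤ rc M ((⋃ p ∈ F, aff p.2.1 p.2.2 Set.univ) ∪ D ∪ Q) := by
      calc M = (Set.Ico 0 (M : ℤ)).ncard := by
            rw [← Finset.coe_Ico, Set.ncard_coe_finset]
            simp
        _ ≤ _ := Set.ncard_le_ncard hsub (res_finite M hM0 _)
    have h2 : M ≤ ∑ p ∈ F, rc M (aff p.2.1 p.2.2 Set.univ) + rc M D + rc M Q := by
      refine h1.trans ((rc_union_le _ _ _).trans ?_)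
      have h3 := rc_union_le M (⋃ p ∈ F, aff p.2.1 p.2.2 Set.univ) D
      have h4 := rc_biUnion_le M F (fun p => aff p.2.1 p.2.2 Set.univ)
      omega
    have h3 : (M : ℝ) ≤ ∑ p ∈ F, (rc M (aff p.2.1 p.2.2 Set.univ) : ℝ) + rc M D + rc M Q := by
      exact_mod_cast h2
    have h4 : ∑ p ∈ F, (rc M (aff p.2.1 p.2.2 Set.univ) : ℝ) ≤ ∑ p ∈ F, (M : ℝ) * (1 / p.2.1) := by
      apply Finset.sum_le_sum
      intro p hp
      obtain ⟨c, hc⟩ := hkM p hp
      have hk0 := hT1 p (hFT p hp)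
      have hc0 : 0 < c := by
        rcases Nat.eq_zero_or_pos c with h | h
        · rw [h] at hc; omega
        · exact h
      rw [hc, rc_aff p.2.1 c hk0]
      have h5 := rc_le c hc0 Set.univ
      have h6 : (rc c Set.univ : ℝ) ≤ c := by exact_mod_cast h5
      have h7 : (0 : ℝ) < p.2.1 := by exact_mod_cast hk0
      push_cast
      refine h6.trans (le_of_eq ?_)
      field_simp
    rw [← Finset.mul_sum] at h4
    have h5 : (rc M D : ℝ) / M ≤ rc n D / n := by
      have := rc_div_mul_le n (K * m) hn (by positivity) D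
      rwa [← hMn] at this
    have h6 : (rc M Q : ℝ) / M ≤ rc m Q / m := by
      have := rc_div_mul_le m (K * n) hm (by positivity) Q
      rwa [← hMm] at this
    have h7 : (1 : ℝ) ≤ ∑ p ∈ F, 1 / (p.2.1 : ℝ) + (rc M D : ℝ) / M + (rc M Q : ℝ) / M := by
      have h8 : (M : ℝ) ≤ M * (∑ p ∈ F, 1 / (p.2.1 : ℝ)) + rc M D + rc M Q := by linarith
      have h9 : (M : ℝ) * 1 ≤ M * (∑ p ∈ F, 1 / (p.2.1 : ℝ) + (rc M D : ℝ) / M +
          (rc M Q : ℝ) / M) := by
        rw [mul_add, mul_add, mul_div_cancel₀ _ hM0'.ne', mul_div_cancel₀ _ hM0'.ne']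
        linarith
      exact le_of_mul_le_mul_left h9 hM0'
    linarith
  have h1 : ∀ m : ℕ, 0 < m → 1 - ∑ p ∈ F, 1 / (p.2.1 : ℝ) - (rc m Q : ℝ) / m ≤ buck D := by
    intro m hm
    apply le_buck
    intro n hn
    linarith [key n m hn hm]
  have h2 : 1 - ∑ p ∈ F, 1 / (p.2.1 : ℝ) - buck D ≤ buck Q := by
    apply le_buck
    intro m hm
    linarith [h1 m hm]
  unfold cost
  linarith

omit hpos hf in
theorem half_piece (s : Bool) : piece H f (s, 1, 0) = half H f s := by
  unfold piece aff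
  simp

omit hpos hf in
theorem buck_empty' : buck ∅ = 0 := by
  apply le_antisymm _ (buck_nonneg _)
  have := buck_le ∅ Nat.one_pos
  simpa [rc, res] using this

/-- Removing the label of the opposite half. -/
theorem covering' (s : Bool) (D Q : Set ℤ) (T : Finset (Bool × ℕ × ℤ))
    (hT1 : ∀ p ∈ T, 0 < p.2.1) (hs : (s, 1, 0) ∉ T)
    (hcov : half H f s \ D ⊆ (⋃ p ∈ T, piece H f p) ∪ Q) :
    1 ≤ cost (T.erase (!s, 1, 0)) Q + buck D := by
  apply covering hpos hf s D Q
  · intro p hp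
    exact hT1 p (Finset.mem_of_mem_erase hp)
  · rintro ⟨a, b, c⟩ hp hbc
    simp only [Prod.mk.injEq] at hbc
    obtain ⟨rfl, rfl⟩ := hbc
    have h1 := Finset.mem_of_mem_erase hp
    have h2 := Finset.ne_of_mem_erase hp
    apply h2
    have : a ≠ s := by
      rintro rfl
      exact hs h1
    cases a <;> cases s <;> simp_all
  · intro x hx
    rcases hcov hx with h | h
    · simp only [Set.mem_iUnion, exists_prop] at h
      obtain ⟨p, hp, hxp⟩ := h
      left
      simp only [Set.mem_iUnion, exists_prop]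
      refine ⟨p, Finset.mem_erase.2 ⟨?_, hp⟩, hxp⟩
      rintro rfl
      rw [half_piece] at hxp
      have h1 := hx.1.2
      have h2 := hxp.2
      rw [h1] at h2
      cases s <;> simp at h2
    · exact Or.inr h

omit hpos hf in
theorem cost_erase (T : Finset (Bool × ℕ × ℤ)) (Q : Set ℤ) (s : Bool) (h : (s, 1, 0) ∈ T) :
    cost T Q = 1 / 2 + cost (T.erase (s, 1, 0)) Q := by
  unfold cost
  rw [← Finset.add_sum_erase T _ h]
  push_cast
  ring

omit hpos hf in
theorem cost_erase_le (T : Finset (Bool × ℕ × ℤ)) (Q : Set ℤ) (q : Bool × ℕ × ℤ) :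
    cost (T.erase q) Q ≤ cost T Q := by
  unfold cost
  have : ∑ p ∈ T.erase q, 1 / (2 * (p.2.1 : ℝ)) ≤ ∑ p ∈ T, 1 / (2 * (p.2.1 : ℝ)) :=
    Finset.sum_le_sum_of_subset_of_nonneg (Finset.erase_subset _ _) (fun p _ _ => by positivity)
  linarith

theorem mu_total : mu H f H = 1 := by
  apply le_antisymm
  · exact (mu_le_buck H f H).trans (buck_le_one H)
  · apply le_mu
    intro T Q hC
    have hsub : ∀ s, half H f s \ ∅ ⊆ (⋃ p ∈ T, piece H f p) ∪ Q := by
      intro s x hx
      rw [hC.2]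
      exact hx.1.1
    by_cases h1 : (true, 1, 0) ∈ T
    · by_cases h2 : (false, 1, 0) ∈ T
      · rw [cost_erase T Q true h1]
        have h3 : (false, 1, 0) ∈ T.erase (true, 1, 0) := by
          rw [Finset.mem_erase]
          exact ⟨by simp, h2⟩
        rw [cost_erase _ Q false h3]
        have := cost_nonneg ((T.erase (true, 1, 0)).erase (false, 1, 0)) Q
        linarith
      · have h3 := covering' hpos hf false ∅ Q T hC.1 h2 (hsub false)
        rw [buck_empty', add_zero] at h3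
        exact h3.trans (cost_erase_le _ _ _)
    · have h3 := covering' hpos hf true ∅ Q T hC.1 h1 (hsub true)
      rw [buck_empty', add_zero] at h3
      exact h3.trans (cost_erase_le _ _ _)

omit hpos hf in
theorem mu_half_le (s : Bool) : mu H f (half H f s) ≤ 1 / 2 := by
  have h : Covers H f (half H f s) {(s, 1, 0)} ∅ := by
    refine ⟨by simp, ?_⟩
    simp [half_piece]
  refine (mu_le h).trans ?_
  unfold cost
  rw [buck_empty']
  simp

omit hpos hf in
theorem half_compl : H \ half H f true = half H f false := by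
  ext x
  unfold half
  simp only [Set.mem_sdiff, Set.mem_ofPred_eq]
  constructor
  · rintro ⟨h1, h2⟩
    refine ⟨h1, ?_⟩
    cases h : f x
    · rfl
    · exact absurd ⟨h1, h⟩ h2
  · rintro ⟨h1, h2⟩
    refine ⟨h1, ?_⟩
    rintro ⟨_, h3⟩
    rw [h2] at h3
    cases h3

omit hpos hf in
theorem half_union : half H f true ∪ half H f false = H := by
  rw [← half_compl, Set.union_sdiff_self]
  apply Set.union_eq_right.2
  exact fun x hx => hx.1

theorem mu_half : mu H f (half H f true) = 1 / 2 ∧ mu H f (half H f false) = 1 / 2 := by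
  have h1 := mu_half_le (H := H) (f := f) true
  have h2 := mu_half_le (H := H) (f := f) false
  have h3 := mu_subadd H f (half H f true) (half H f false)
  rw [half_union, mu_total hpos hf] at h3
  constructor <;> linarith

/-- No nontrivial affine piece is contained in `half true`. -/
theorem piece_not_sub (p : Bool × ℕ × ℤ) (hp : 0 < p.2.1) (hne : p ≠ (true, 1, 0)) :
    ¬ piece H f p ⊆ half H f true := by
  intro hsub
  by_cases h10 : p.2 = (1, 0)
  · have hp1 : p.1 = false := by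
      rcases h : p.1 with _ | _
      · rfl
      · exact absurd (Prod.ext h h10) hne
    have h1 : p = (false, 1, 0) := Prod.ext hp1 h10
    rw [h1, half_piece] at hsub
    obtain ⟨x, -, -, hx⟩ := gen_empty hpos hf 1 Nat.one_pos 0 0 false
    have h2 := (hsub hx).2
    rw [hx.2] at h2
    cases h2
  · have hadm : Adm {(!p.1, p.2)} := by
      refine ⟨?_, ?_, ?_⟩
      · intro q hq
        rw [Finset.mem_singleton] at hq
        rw [hq]; exact hp
      · intro q hq
        rw [Finset.mem_singleton] at hq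
        rw [hq, Finset.mem_singleton]
        intro hcon
        have := congrArg Prod.fst hcon
        simp at this
      · intro q hq
        rw [Finset.mem_singleton] at hq
        rw [hq]; exact h10
    obtain ⟨x, hx1, hx2, hx3, hx4⟩ := gen hpos hf p.2.1 hp p.2.2 |p.2.2| false _ hadm
    have hk : (0 : ℤ) < p.2.1 := by exact_mod_cast hp
    obtain ⟨y, hy⟩ : (p.2.1 : ℤ) ∣ x - p.2.2 := Int.ModEq.dvd
      (show p.2.2 ≡ x [ZMOD p.2.1] from hx2.symm)
    have hxy : (p.2.1 : ℤ) * y + p.2.2 = x := by linarith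
    have hy0 : 0 < y := by
      have h5 := le_abs_self p.2.2
      have h6 : 0 < (p.2.1 : ℤ) * y := by linarith
      exact (mul_pos_iff_of_pos_left hk).1 h6
    have hyH : y ∈ H := hpos y hy0
    have h7 : x ∉ piece H f (!p.1, p.2) := hx4 _ (Finset.mem_singleton_self _)
    have h8 : f y = p.1 := by
      by_contra hcon
      apply h7
      refine ⟨y, ⟨hyH, ?_⟩, hxy⟩
      show f y = !p.1
      cases h : f y <;> cases h' : p.1 <;> simp_all
    have h9 : x ∈ piece H f p := ⟨y, ⟨hyH, h8⟩, hxy⟩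
    have h10 := (hsub h9).2
    rw [hx3.2] at h10
    cases h10

theorem main (Y : Set ℤ) (hY : Y ⊆ half H f true) (hdom : mu H f Y + mu H f (H \ Y) = 1)
    (h0 : 0 < mu H f Y) (h1 : mu H f Y < 1 / 2) : False := by
  have hYne : Y.Nonempty := by
    by_contra hcon
    rw [Set.not_nonempty_iff_eq_empty] at hcon
    rw [hcon] at h0
    have := mu_le_buck H f ∅
    rw [buck_empty'] at this
    linarith
  have hYX : Y ≠ half H f true := by
    intro h
    rw [h, (mu_half hpos hf).1] at h1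
    exact lt_irrefl _ h1
  have hYb : mu H f Y = buck Y := by
    apply le_antisymm (mu_le_buck H f Y)
    apply le_mu
    intro T Q hC
    have hT : T = ∅ := by
      rw [Finset.eq_empty_iff_forall_notMem]
      intro p hp
      have hsub : piece H f p ⊆ Y := by
        intro x hx
        rw [← hC.2]
        exact Or.inl (Set.mem_biUnion hp hx)
      by_cases hpe : p = (true, 1, 0)
      · apply hYX
        apply le_antisymm hY
        rw [hpe, half_piece] at hsub
        exact hsub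
      · exact piece_not_sub hpos hf p (hC.1 p hp) hpe (hsub.trans hY)
    have hQ : Q = Y := by
      have := hC.2
      rw [hT] at this
      simpa using this
    rw [hT, hQ]
    unfold cost
    simp
  have hYc : 1 ≤ mu H f (H \ Y) := by
    apply le_mu
    intro T Q hC
    have ht : (true, 1, 0) ∉ T := by
      intro ht
      obtain ⟨y, hy⟩ := hYne
      have : y ∈ H \ Y := by
        rw [← hC.2]
        left
        apply Set.mem_biUnion ht
        rw [half_piece]
        exact hY hy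
      exact this.2 hy
    by_cases hfT : (false, 1, 0) ∈ T
    · have h2 := covering' hpos hf true Y Q T hC.1 ht (by
        rintro x ⟨hx1, hx2⟩
        rw [hC.2]
        exact ⟨hx1.1, hx2⟩)
      have h3 := cost_erase T Q false hfT
      have h4 : (!true, 1, 0) = ((false, 1, 0) : Bool × ℕ × ℤ) := rfl
      rw [h4] at h2
      linarith
    · have h2 := covering' hpos hf false ∅ Q T hC.1 hfT (by
        rintro x ⟨hx1, hx2⟩
        rw [hC.2]
        refine ⟨hx1.1, fun hxY => ?_⟩
        have h5 := (hY hxY).2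
        rw [hx1.2] at h5
        cases h5)
      rw [buck_empty', add_zero] at h2
      exact h2.trans (cost_erase_le _ _ _)
  linarith

end generic

/-- On each of the three domains the weak Darboux property fails for some induced
quasi-density. -/
theorem result (H : Set ℤ)
    (hH : H = Set.univ ∨ H = {n : ℤ | 0 ≤ n} ∨ H = {n : ℤ | 0 < n}) :
    ∃ μ : Set ℤ → ℝ, IsUpperQuasiDensity H μ ∧ ∃ X : Set ℤ, InDomain H μ X ∧ μ X = 1 / 2 ∧
      ∀ a : ℝ, 0 < a → a < 1 / 2 → ¬ ∃ Y : Set ℤ, Y ⊆ X ∧ InDomain H μ Y ∧ μ Y = a := by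
  have hpos : ∀ x : ℤ, 0 < x → x ∈ H := by
    intro x hx
    rcases hH with rfl | rfl | rfl
    · trivial
    · exact hx.le
    · exact hx
  obtain ⟨f, hf⟩ := exists_generic
  refine ⟨mu H f, ⟨mu_total hpos hf, ?_, ?_, ?_⟩, half H f true, ⟨fun x hx => hx.1, ?_⟩,
    (mu_half hpos hf).1, ?_⟩
  · intro X Y _ _
    exact mu_subadd H f X Y
  · intro X _ h k _ hk
    exact mu_aff hpos hf k hk h X
  · intro X _
    exact (mu_le_buck H f X).trans (buck_le_one X)
  · rw [half_compl, (mu_half hpos hf).1, (mu_half hpos hf).2]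
    norm_num
  · rintro a ha0 ha1 ⟨Y, hYX, hdom, rfl⟩
    exact main hpos hf Y hYX hdom.2 ha0 ha1

end Pool.Agent.Results.MP_52e7c8_nt.NoWeakDarboux
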